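import Mathlib

/-!
# Inequivalent non-extreme subsets of `ℤ/16` with equal Sidon constants

The sets `{0, 1, 8}` and `{0, 2, 8}` both have Sidon constant `√2`.
-/

namespace Pool.Agent.Results.MP_e96fbd_an.EqualSidon

open Finset

/-- The character `t ↦ e ^ (2 π i x t / k)` of `ℤ/k`. -/
noncomputable def chi {k : ℕ} (x t : ZMod k) : ℂ :=
  Complex.exp (2 * Real.pi * Complex.I * (x.val * t.val : ℕ) / k)

/-- The values `∑ |a x|` over `E`-polynomials of sup norm at most one. -/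
def sums {k : ℕ} (E : Finset (ZMod k)) : Set ℝ :=
  {s | ∃ a : ZMod k → ℂ, (∀ t : ZMod k, ‖∑ x ∈ E, a x * chi x t‖ ≤ 1) ∧ s = ∑ x ∈ E, ‖a x‖}

/-- The Sidon constant of `E`. -/
noncomputable def sidon {k : ℕ} (E : Finset (ZMod k)) : ℝ := sSup (sums E)

/-- `E` is extreme if its Sidon constant is `√|E|`. -/
def Extreme {k : ℕ} (E : Finset (ZMod k)) : Prop := sidon E = Real.sqrt E.card

/-- `F = u E + c` for some unit `u`. -/
def Equivalent {k : ℕ} (E F : Finset (ZMod k)) : Prop :=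
  ∃ (u : (ZMod k)ˣ) (c : ZMod k), F = E.image (fun x => (u : ZMod k) * x + c)

/-! ### The basic inequality -/

lemma corner {A a : ℂ} (h0 : ‖A + a‖ ≤ 1) (h1 : ‖A + a * Complex.I‖ ≤ 1)
    (h2 : ‖A - a‖ ≤ 1) (h3 : ‖A - a * Complex.I‖ ≤ 1) :
    Real.sqrt 2 * ‖A‖ + ‖a‖ ≤ Real.sqrt 2 := by
  have sq1 : ∀ z : ℂ, ‖z‖ ^ 2 = z.re ^ 2 + z.im ^ 2 := by
    intro z
    rw [← Complex.normSq_eq_norm_sq, Complex.normSq_apply]; ring
  have hle : ∀ z : ℂ, ‖z‖ ≤ 1 → z.re ^ 2 + z.im ^ 2 ≤ 1 := by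
    intro z hz
    rw [← sq1]
    have := norm_nonneg z
    nlinarith
  have g0 := hle _ h0
  have g1 := hle _ h1
  have g2 := hle _ h2
  have g3 := hle _ h3
  simp only [Complex.add_re, Complex.add_im, Complex.sub_re, Complex.sub_im, Complex.mul_re,
    Complex.mul_im, Complex.I_re, Complex.I_im, mul_zero, mul_one, zero_sub,
    add_zero] at g0 g1 g2 g3
  have hs2 : Real.sqrt 2 ^ 2 = 2 := Real.sq_sqrt (by norm_num)
  have hs0 : 0 < Real.sqrt 2 := Real.sqrt_pos.mpr (by norm_num)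
  have hA := sq1 A
  have ha := sq1 a
  have hA0 := norm_nonneg A
  have ha0 := norm_nonneg a
  -- `√2 |A| |a| ≤ 2 max (|Re|, |Im|)` of `A * conj a`
  set P := ‖A‖ * ‖a‖ with hP
  have hP0 : 0 ≤ P := mul_nonneg hA0 ha0
  have hPsq : P ^ 2 = (A.re * a.re + A.im * a.im) ^ 2 + (A.im * a.re - A.re * a.im) ^ 2 := by
    rw [hP, mul_pow, hA, ha]; ring
  have key : ‖A‖ ^ 2 + ‖a‖ ^ 2 + Real.sqrt 2 * P ≤ 1 := by
    by_contra hcon
    push Not at hcon
    rw [hA, ha] at hcon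
    have b1 : |A.re * a.re + A.im * a.im| < Real.sqrt 2 * P / 2 := by
      rw [abs_lt]; constructor <;> nlinarith
    have b2 : |A.im * a.re - A.re * a.im| < Real.sqrt 2 * P / 2 := by
      rw [abs_lt]; constructor <;> nlinarith
    have c1 := sq_lt_sq' (by linarith [abs_nonneg (A.re * a.re + A.im * a.im)]) b1
    have c2 := sq_lt_sq' (by linarith [abs_nonneg (A.im * a.re - A.re * a.im)]) b2
    rw [sq_abs] at c1 c2
    have : (Real.sqrt 2 * P / 2) ^ 2 = P ^ 2 / 2 := by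
      rw [div_pow, mul_pow, hs2]; ring
    rw [this] at c1 c2
    linarith
  have hsq : (Real.sqrt 2 * ‖A‖ + ‖a‖) ^ 2 ≤ Real.sqrt 2 ^ 2 := by
    have e : (Real.sqrt 2 * ‖A‖ + ‖a‖) ^ 2 =
        Real.sqrt 2 ^ 2 * ‖A‖ ^ 2 + 2 * Real.sqrt 2 * P + ‖a‖ ^ 2 := by rw [hP]; ring
    rw [e, hs2]
    nlinarith [sq_nonneg ‖a‖]
  exact le_of_sq_le_sq hsq hs0.le

/-- Two coefficients at `0` and `8`. -/
lemma two_coeff (u v : ℂ) {M : ℝ} (h1 : ‖u + v‖ ≤ M) (h2 : ‖u - v‖ ≤ M) :
    ‖u‖ + ‖v‖ ≤ Real.sqrt 2 * M := by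
  have hM : 0 ≤ M := (norm_nonneg _).trans h1
  have hpar := parallelogram_law_with_norm ℝ u v
  have hs2 : Real.sqrt 2 ^ 2 = 2 := Real.sq_sqrt (by norm_num)
  have hs0 : 0 ≤ Real.sqrt 2 := Real.sqrt_nonneg 2
  have n1 := norm_nonneg (u + v)
  have n2 := norm_nonneg (u - v)
  have e1 : ‖u + v‖ * ‖u + v‖ ≤ M * M := mul_le_mul h1 h1 n1 hM
  have e2 : ‖u - v‖ * ‖u - v‖ ≤ M * M := mul_le_mul h2 h2 n2 hM
  have hsq : (‖u‖ + ‖v‖) ^ 2 ≤ (Real.sqrt 2 * M) ^ 2 := by
    rw [mul_pow, hs2]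
    nlinarith [sq_nonneg (‖u‖ - ‖v‖)]
  exact le_of_sq_le_sq hsq (mul_nonneg hs0 hM)

/-- The bound for a three-term sum. -/
lemma three_coeff {u v b : ℂ} {ζ : ℂ} (hζ : ‖ζ‖ = 1)
    (e0 : ‖(u + v) + b‖ ≤ 1) (e1 : ‖(u + v) + b * Complex.I‖ ≤ 1)
    (e2 : ‖(u + v) - b‖ ≤ 1) (e3 : ‖(u + v) - b * Complex.I‖ ≤ 1)
    (o0 : ‖(u - v) + b * ζ‖ ≤ 1) (o1 : ‖(u - v) + b * ζ * Complex.I‖ ≤ 1)
    (o2 : ‖(u - v) - b * ζ‖ ≤ 1) (o3 : ‖(u - v) - b * ζ * Complex.I‖ ≤ 1) :
    ‖u‖ + ‖v‖ + ‖b‖ ≤ Real.sqrt 2 := by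
  have c1 := corner e0 e1 e2 e3
  have c2 := corner o0 o1 o2 o3
  rw [norm_mul, hζ, mul_one] at c2
  have hs0 : 0 < Real.sqrt 2 := Real.sqrt_pos.mpr (by norm_num)
  have hs2 : Real.sqrt 2 * Real.sqrt 2 = 2 := Real.mul_self_sqrt (by norm_num)
  have h1 : ‖u + v‖ ≤ (Real.sqrt 2 - ‖b‖) / Real.sqrt 2 := by
    rw [le_div_iff₀ hs0]; linarith
  have h2 : ‖u - v‖ ≤ (Real.sqrt 2 - ‖b‖) / Real.sqrt 2 := by
    rw [le_div_iff₀ hs0]; linarith
  have h3 := two_coeff u v h1 h2
  have h4 : Real.sqrt 2 * ((Real.sqrt 2 - ‖b‖) / Real.sqrt 2) = Real.sqrt 2 - ‖b‖ := by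
    field_simp
  linarith

/-! ### The characters of `ℤ/16` -/

/-- The primitive sixteenth root of unity. -/
noncomputable def w : ℂ := Complex.exp (2 * Real.pi * Complex.I / 16)

lemma chi_eq (x t : ZMod 16) : chi x t = w ^ (x.val * t.val) := by
  unfold chi w
  rw [← Complex.exp_nat_mul]
  congr 1
  push_cast
  ring

lemma w4 : w ^ 4 = Complex.I := by
  unfold w
  rw [← Complex.exp_nat_mul]
  have : ((4 : ℕ) : ℂ) * (2 * Real.pi * Complex.I / 16) = Real.pi / 2 * Complex.I := by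
    push_cast
    ring
  rw [this, Complex.exp_pi_div_two_mul_I]

lemma w8 : w ^ 8 = -1 := by
  have : w ^ 8 = (w ^ 4) * (w ^ 4) := by ring
  rw [this, w4, Complex.I_mul_I]

lemma norm_w : ‖w‖ = 1 := by
  unfold w
  have : (2 * Real.pi * Complex.I / 16 : ℂ) = ((Real.pi / 8 : ℝ) : ℂ) * Complex.I := by
    push_cast
    ring
  rw [this, Complex.norm_exp_ofReal_mul_I]

/-- The polynomial with frequencies `0, x, 8`. -/
lemma sum_three {x : ZMod 16} (h0 : (0 : ZMod 16) ∉ ({x, 8} : Finset (ZMod 16)))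
    (h1 : x ∉ ({8} : Finset (ZMod 16))) (a : ZMod 16 → ℂ) (t : ZMod 16) :
    ∑ y ∈ ({0, x, 8} : Finset (ZMod 16)), a y * chi y t =
      a 0 + a x * w ^ (x.val * t.val) + a 8 * w ^ (8 * t.val) := by
  rw [Finset.sum_insert h0, Finset.sum_insert h1, Finset.sum_singleton, chi_eq, chi_eq, chi_eq]
  have e0 : (0 : ZMod 16).val = 0 := by decide
  have e8 : (8 : ZMod 16).val = 8 := by decide
  rw [e0, e8, zero_mul, pow_zero, mul_one, add_assoc]

lemma upper_one {s : ℝ} (hs : s ∈ sums ({0, 1, 8} : Finset (ZMod 16))) : s ≤ Real.sqrt 2 := by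
  obtain ⟨a, ha, rfl⟩ := hs
  have h0 : (0 : ZMod 16) ∉ ({1, 8} : Finset (ZMod 16)) := by decide
  have h1 : (1 : ZMod 16) ∉ ({8} : Finset (ZMod 16)) := by decide
  rw [Finset.sum_insert h0, Finset.sum_insert h1, Finset.sum_singleton]
  have hv : ∀ t : ZMod 16, ‖a 0 + a 1 * w ^ t.val + a 8 * w ^ (8 * t.val)‖ ≤ 1 := by
    intro t
    have := ha t
    rw [sum_three h0 h1] at this
    have e1 : (1 : ZMod 16).val = 1 := by decide
    rw [e1, one_mul] at this
    exact this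
  have w4 := w4
  have w8 := w8
  have t0 := hv 0
  have t4 := hv 4
  have t8 := hv 8
  have t12 := hv 12
  have t1 := hv 1
  have t5 := hv 5
  have t9 := hv 9
  have t13 := hv 13
  have v0 : (0 : ZMod 16).val = 0 := by decide
  have v4 : (4 : ZMod 16).val = 4 := by decide
  have v8 : (8 : ZMod 16).val = 8 := by decide
  have v12 : (12 : ZMod 16).val = 12 := by decide
  have v1 : (1 : ZMod 16).val = 1 := by decide
  have v5 : (5 : ZMod 16).val = 5 := by decide
  have v9 : (9 : ZMod 16).val = 9 := by decide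
  have v13 : (13 : ZMod 16).val = 13 := by decide
  rw [v0] at t0
  rw [v4] at t4
  rw [v8] at t8
  rw [v12] at t12
  rw [v1] at t1
  rw [v5] at t5
  rw [v9] at t9
  rw [v13] at t13
  have p12 : w ^ 12 = -Complex.I := by
    have : w ^ 12 = w ^ 8 * w ^ 4 := by ring
    rw [this, w4, w8]; ring
  have p5 : w ^ 5 = w * Complex.I := by
    have : w ^ 5 = w * w ^ 4 := by ring
    rw [this, w4]
  have p9 : w ^ 9 = -w := by
    have : w ^ 9 = w * w ^ 8 := by ring
    rw [this, w8]; ring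
  have p13 : w ^ 13 = -(w * Complex.I) := by
    have : w ^ 13 = w * w ^ 8 * w ^ 4 := by ring
    rw [this, w4, w8]; ring
  have q : ∀ n : ℕ, w ^ (8 * n) = (-1) ^ n := by
    intro n
    rw [pow_mul, w8]
  have h := three_coeff (u := a 0) (v := a 8) (b := a 1) (ζ := w) norm_w
    (by rw [q] at t0; convert t0 using 2; norm_num; ring)
    (by rw [q, w4] at t4; convert t4 using 2; norm_num; ring)
    (by rw [q, w8] at t8; convert t8 using 2; norm_num; ring)
    (by rw [q, p12] at t12; convert t12 using 2; norm_num; ring)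
    (by rw [q] at t1; convert t1 using 2; norm_num; ring)
    (by rw [q, p5] at t5; convert t5 using 2; norm_num; ring)
    (by rw [q, p9] at t9; convert t9 using 2; norm_num; ring)
    (by rw [q, p13] at t13; convert t13 using 2; norm_num; ring)
  linarith

lemma upper_two {s : ℝ} (hs : s ∈ sums ({0, 2, 8} : Finset (ZMod 16))) : s ≤ Real.sqrt 2 := by
  obtain ⟨a, ha, rfl⟩ := hs
  have h0 : (0 : ZMod 16) ∉ ({2, 8} : Finset (ZMod 16)) := by decide
  have h1 : (2 : ZMod 16) ∉ ({8} : Finset (ZMod 16)) := by decide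
  rw [Finset.sum_insert h0, Finset.sum_insert h1, Finset.sum_singleton]
  have hv : ∀ t : ZMod 16, ‖a 0 + a 2 * w ^ (2 * t.val) + a 8 * w ^ (8 * t.val)‖ ≤ 1 := by
    intro t
    have := ha t
    rw [sum_three h0 h1] at this
    have e1 : (2 : ZMod 16).val = 2 := by decide
    rw [e1] at this
    exact this
  have w4 := w4
  have w8 := w8
  have t0 := hv 0
  have t2 := hv 2
  have t4 := hv 4
  have t6 := hv 6
  have t1 := hv 1
  have t3 := hv 3
  have t5 := hv 5
  have t7 := hv 7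
  have v0 : (0 : ZMod 16).val = 0 := by decide
  have v2 : (2 : ZMod 16).val = 2 := by decide
  have v4 : (4 : ZMod 16).val = 4 := by decide
  have v6 : (6 : ZMod 16).val = 6 := by decide
  have v1 : (1 : ZMod 16).val = 1 := by decide
  have v3 : (3 : ZMod 16).val = 3 := by decide
  have v5 : (5 : ZMod 16).val = 5 := by decide
  have v7 : (7 : ZMod 16).val = 7 := by decide
  rw [v0] at t0
  rw [v2] at t2
  rw [v4] at t4
  rw [v6] at t6
  rw [v1] at t1
  rw [v3] at t3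
  rw [v5] at t5
  rw [v7] at t7
  have q2 : w ^ (2 * 2) = Complex.I := w4
  have q4 : w ^ (2 * 4) = -1 := w8
  have p6 : w ^ (2 * 6) = -Complex.I := by
    have : w ^ (2 * 6) = w ^ 8 * w ^ 4 := by ring
    rw [this, w4, w8]; ring
  have p3 : w ^ (2 * 3) = w ^ 2 * Complex.I := by
    have : w ^ (2 * 3) = w ^ 2 * w ^ 4 := by ring
    rw [this, w4]
  have p5 : w ^ (2 * 5) = -w ^ 2 := by
    have : w ^ (2 * 5) = w ^ 2 * w ^ 8 := by ring
    rw [this, w8]; ring
  have p7 : w ^ (2 * 7) = -(w ^ 2 * Complex.I) := by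
    have : w ^ (2 * 7) = w ^ 2 * w ^ 8 * w ^ 4 := by ring
    rw [this, w4, w8]; ring
  have q : ∀ n : ℕ, w ^ (8 * n) = (-1) ^ n := by
    intro n
    rw [pow_mul, w8]
  have hn : ‖w ^ 2‖ = 1 := by rw [norm_pow, norm_w, one_pow]
  have h := three_coeff (u := a 0) (v := a 8) (b := a 2) (ζ := w ^ 2) hn
    (by rw [q] at t0; convert t0 using 2; norm_num; ring)
    (by rw [q, q2] at t2; convert t2 using 2; norm_num; ring)
    (by rw [q, q4] at t4; convert t4 using 2; norm_num; ring)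
    (by rw [q, p6] at t6; convert t6 using 2; norm_num; ring)
    (by rw [q] at t1; convert t1 using 2; norm_num; ring)
    (by rw [q, p3] at t3; convert t3 using 2; norm_num; ring)
    (by rw [q, p5] at t5; convert t5 using 2; norm_num; ring)
    (by rw [q, p7] at t7; convert t7 using 2; norm_num; ring)
  linarith

/-- The value `√2` is attained with frequencies `0` and `8` only. -/
lemma attained {x : ZMod 16} (hx0 : x ≠ 0) (hx8 : x ≠ 8) :
    Real.sqrt 2 ∈ sums ({0, x, 8} : Finset (ZMod 16)) := by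
  have h0 : (0 : ZMod 16) ∉ ({x, 8} : Finset (ZMod 16)) := by
    rw [Finset.mem_insert, Finset.mem_singleton, not_or]
    exact ⟨hx0.symm, by decide⟩
  have h1 : x ∉ ({8} : Finset (ZMod 16)) := by
    rw [Finset.mem_singleton]
    exact hx8
  have hs0 : 0 < Real.sqrt 2 := Real.sqrt_pos.mpr (by norm_num)
  have hs2 : Real.sqrt 2 * Real.sqrt 2 = 2 := Real.mul_self_sqrt (by norm_num)
  have h80 : (8 : ZMod 16) ≠ 0 := by decide
  refine ⟨fun y => if y = 0 then ((1 / Real.sqrt 2 : ℝ) : ℂ) else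
    if y = 8 then ((1 / Real.sqrt 2 : ℝ) : ℂ) * Complex.I else 0, ?_, ?_⟩
  · intro t
    rw [sum_three h0 h1]
    simp only [if_true, hx0, hx8, h80, if_false]
    have hq : w ^ (8 * t.val) = (-1) ^ t.val := by rw [pow_mul, w8]
    rw [hq]
    have hcase : ((-1 : ℂ)) ^ t.val = 1 ∨ ((-1 : ℂ)) ^ t.val = -1 := neg_one_pow_eq_or ℂ _
    have hone : ∀ e : ℝ, (e = 1 ∨ e = -1) →
        ‖((1 / Real.sqrt 2 : ℝ) : ℂ) * (1 + (e : ℂ) * Complex.I)‖ ≤ 1 := by
      intro e he
      have h2 : ‖(1 + (e : ℂ) * Complex.I)‖ = Real.sqrt 2 := by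
        have h3 : ‖(1 + (e : ℂ) * Complex.I)‖ ^ 2 = 2 := by
          rw [← Complex.normSq_eq_norm_sq, Complex.normSq_apply]
          rcases he with rfl | rfl <;> norm_num
        rw [← h3, Real.sqrt_sq (norm_nonneg _)]
      rw [norm_mul, h2, Complex.norm_real, Real.norm_of_nonneg (by positivity)]
      rw [one_div, inv_mul_cancel₀ hs0.ne']
    rcases hcase with h | h
    · rw [h]
      have := hone 1 (Or.inl rfl)
      convert this using 2
      push_cast
      ring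
    · rw [h]
      have := hone (-1) (Or.inr rfl)
      convert this using 2
      push_cast
      ring
  · rw [Finset.sum_insert h0, Finset.sum_insert h1, Finset.sum_singleton]
    simp only [if_true, hx0, hx8, h80, if_false]
    rw [norm_mul, Complex.norm_real, Complex.norm_I, Real.norm_of_nonneg (by positivity)]
    simp only [norm_zero, mul_one, zero_add]
    field_simp
    linarith

lemma sidon_one : sidon ({0, 1, 8} : Finset (ZMod 16)) = Real.sqrt 2 := by
  apply le_antisymm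
  · exact csSup_le ⟨_, attained (by decide) (by decide)⟩ (fun s hs => upper_one hs)
  · exact le_csSup ⟨Real.sqrt 2, fun s hs => upper_one hs⟩ (attained (by decide) (by decide))

lemma sidon_two : sidon ({0, 2, 8} : Finset (ZMod 16)) = Real.sqrt 2 := by
  apply le_antisymm
  · exact csSup_le ⟨_, attained (by decide) (by decide)⟩ (fun s hs => upper_two hs)
  · exact le_csSup ⟨Real.sqrt 2, fun s hs => upper_two hs⟩ (attained (by decide) (by decide))

lemma inequivalent : ∀ u v c : ZMod 16, u * v = 1 →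
    ({0, 2, 8} : Finset (ZMod 16)) ≠ ({0, 1, 8} : Finset (ZMod 16)).image
      (fun x => u * x + c) := by
  decide +kernel

lemma not_equivalent :
    ¬ Equivalent ({0, 1, 8} : Finset (ZMod 16)) ({0, 2, 8} : Finset (ZMod 16)) := by
  rintro ⟨u, c, h⟩
  exact inequivalent u (↑u⁻¹) c (by simp) h

/-- The subsets `{0, 1, 8}` and `{0, 2, 8}` of `ℤ/16` are inequivalent, both have Sidon constant
`√2`, and neither is extreme; so equal Sidon constants of inequivalent sets of equal size do not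
force extremality. -/
theorem result :
    (∃ E F : Finset (ZMod 16), E.card = 3 ∧ F.card = 3 ∧ sidon E = Real.sqrt 2 ∧
      sidon F = Real.sqrt 2 ∧ ¬ Equivalent E F ∧ ¬ Extreme E ∧ ¬ Extreme F) ∧
    ¬ (∀ k : ℕ, 1 ≤ k → ∀ E F : Finset (ZMod k), E.Nonempty → F.Nonempty → E.card = F.card →
      sidon E = sidon F → ¬ Equivalent E F → Extreme E ∧ Extreme F) := by
  have c1 : ({0, 1, 8} : Finset (ZMod 16)).card = 3 := by decide
  have c2 : ({0, 2, 8} : Finset (ZMod 16)).card = 3 := by decide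
  have hne : Real.sqrt 2 ≠ Real.sqrt (3 : ℕ) := by
    intro h
    have h2 : Real.sqrt 2 ^ 2 = Real.sqrt (3 : ℕ) ^ 2 := by rw [h]
    rw [Real.sq_sqrt (by norm_num), Real.sq_sqrt (by norm_num)] at h2
    norm_num at h2
  have x1 : ¬ Extreme ({0, 1, 8} : Finset (ZMod 16)) := by
    unfold Extreme
    rw [sidon_one, c1]
    exact hne
  have x2 : ¬ Extreme ({0, 2, 8} : Finset (ZMod 16)) := by
    unfold Extreme
    rw [sidon_two, c2]
    exact hne
  refine ⟨⟨_, _, c1, c2, sidon_one, sidon_two, not_equivalent, x1, x2⟩, ?_⟩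
  intro h
  exact x1 (h 16 (by norm_num) {0, 1, 8} {0, 2, 8} ⟨0, by simp⟩ ⟨0, by simp⟩ (by rw [c1, c2])
    (by rw [sidon_one, sidon_two]) not_equivalent).1

end Pool.Agent.Results.MP_e96fbd_an.EqualSidon
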